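import Pool.Agent.R472.SortedBest

/-!
# MP_e22fa6_co: sorted optimal two-coalition structures, average-distance cost

Positive answer to Q1: in both the HIS and the UIS setting, every instance
`v_1 ≤ … ≤ v_n` has an optimal coalition structure with at most two coalitions that is sorted.
-/

namespace Pool.Agent.Results.MP_e22fa6_co.SortedOptimum

open Finset Pool.Agent.R472.SortedCore

/-- The two conventions for singleton coalitions: cost `0` (HIS) or `+∞` (UIS). -/
inductive Setting
  | HIS
  | UIS

/-- The cost of agent `i` in the coalition `C`. -/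
noncomputable def cost {n : ℕ} (s : Setting) (v : Fin n → ℝ) (C : Finset (Fin n)) (i : Fin n) :
    EReal :=
  if C.card = 1 then (match s with
    | .HIS => 0
    | .UIS => ⊤)
  else (((∑ j ∈ C.erase i, |v i - v j|) / ((C.card : ℝ) - 1) : ℝ) : EReal)

/-- The social cost of a coalition structure (a partition of the set of all agents). -/
noncomputable def SC {n : ℕ} (s : Setting) (v : Fin n → ℝ)
    (P : Finpartition (Finset.univ : Finset (Fin n))) : EReal :=
  ∑ C ∈ P.parts, ∑ i ∈ C, cost s v C i

/-- `P` has at most two coalitions and minimises the social cost among all structures with at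
most two coalitions. -/
def IsOptimal {n : ℕ} (s : Setting) (v : Fin n → ℝ)
    (P : Finpartition (Finset.univ : Finset (Fin n))) : Prop :=
  P.parts.card ≤ 2 ∧
    ∀ P' : Finpartition (Finset.univ : Finset (Fin n)), P'.parts.card ≤ 2 → SC s v P ≤ SC s v P'

/-- `P` is sorted: each coalition contains every agent whose value lies (weakly) between the
values of two of its members. -/
def Sorted {n : ℕ} (v : Fin n → ℝ) (P : Finpartition (Finset.univ : Finset (Fin n))) : Prop :=
  ∀ C ∈ P.parts, ∀ i ∈ C, ∀ j ∈ C, ∀ k : Fin n,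
    min (v i) (v j) ≤ v k → v k ≤ max (v i) (v j) → k ∈ C

/-! ### sets and partitions -/

/-- cost of one side -/
noncomputable def cc {n : ℕ} (s : Setting) (v : Fin n → ℝ) (C : Finset (Fin n)) : EReal :=
  ∑ i ∈ C, cost s v C i

theorem exists_part {n : ℕ} (hn : 2 ≤ n) (C : Finset (Fin n)) :
    ∃ P : Finpartition (Finset.univ : Finset (Fin n)), P.parts.card ≤ 2 ∧
      (∀ D ∈ P.parts, D = C ∨ D = univ \ C) ∧
      ∀ (s : Setting) (v : Fin n → ℝ), SC s v P = cc s v C + cc s v (univ \ C) := by
  classical
  have hne : (univ : Finset (Fin n)) ≠ ∅ := by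
    intro h
    have : (univ : Finset (Fin n)).card = 0 := by rw [h]; simp
    rw [Finset.card_univ, Fintype.card_fin] at this
    omega
  by_cases h1 : C = ∅
  · refine ⟨Finpartition.indiscrete hne, by simp, ?_, ?_⟩
    · intro D hD
      simp only [Finpartition.indiscrete_parts, Finset.mem_singleton] at hD
      right; rw [hD, h1]; simp
    · intro s v
      simp only [SC, Finpartition.indiscrete_parts, Finset.sum_singleton, h1, cc, Finset.sum_empty,
        zero_add, Finset.sdiff_empty]
  by_cases h2 : univ \ C = ∅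
  · have h2' : C = univ := by
      have := Finset.sdiff_eq_empty_iff_subset.mp h2
      exact Finset.eq_univ_iff_forall.mpr (fun x => this (Finset.mem_univ x))
    refine ⟨Finpartition.indiscrete hne, by simp, ?_, ?_⟩
    · intro D hD
      simp only [Finpartition.indiscrete_parts, Finset.mem_singleton] at hD
      left; rw [hD, h2']
    · intro s v
      rw [h2]
      simp only [SC, Finpartition.indiscrete_parts, Finset.sum_singleton, h2', cc, Finset.sum_empty,
        add_zero]
  have hCD : C ≠ univ \ C := by
    intro h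
    obtain ⟨x, hx⟩ := Finset.nonempty_iff_ne_empty.mpr h1
    have hx' := hx
    rw [h] at hx'
    exact (Finset.mem_sdiff.mp hx').2 hx
  refine ⟨{ parts := {C, univ \ C}
            supIndep := ?_
            sup_parts := ?_
            bot_notMem := ?_ }, ?_, ?_, ?_⟩
  · rw [Finset.supIndep_pair hCD]
    exact Finset.disjoint_sdiff
  · rw [Finset.sup_insert, Finset.sup_singleton]
    simp
  · simp only [Finset.bot_eq_empty, Finset.mem_insert, Finset.mem_singleton, not_or]
    exact ⟨fun h => h1 h.symm, fun h => h2 h.symm⟩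
  · exact Finset.card_le_two
  · intro D hD
    simpa using hD
  · intro s v
    simp only [SC, cc]
    rw [Finset.sum_pair hCD]

theorem part_exists {n : ℕ} (hn : 2 ≤ n) (P : Finpartition (Finset.univ : Finset (Fin n)))
    (hP : P.parts.card ≤ 2) :
    ∃ C : Finset (Fin n), ∀ (s : Setting) (v : Fin n → ℝ),
      SC s v P = cc s v C + cc s v (univ \ C) := by
  classical
  have hsup := P.sup_parts
  rcases Nat.lt_or_ge P.parts.card 1 with h0 | h0
  · exfalso
    have : P.parts = ∅ := Finset.card_eq_zero.mp (by omega)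
    rw [this, Finset.sup_empty] at hsup
    have h : (univ : Finset (Fin n)).card = 0 := by rw [← hsup]; simp
    rw [Finset.card_univ, Fintype.card_fin] at h
    omega
  rcases Nat.lt_or_ge P.parts.card 2 with h1 | h1
  · obtain ⟨C, hC⟩ := Finset.card_eq_one.mp (show P.parts.card = 1 by omega)
    rw [hC, Finset.sup_singleton] at hsup
    simp only [id] at hsup
    refine ⟨C, fun s v => ?_⟩
    rw [SC, hC, Finset.sum_singleton, hsup, Finset.sdiff_self]
    simp only [cc, Finset.sum_empty, add_zero]
  · obtain ⟨C, D, hne, hCD⟩ := Finset.card_eq_two.mp (show P.parts.card = 2 by omega)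
    have hdis : Disjoint C D := by
      have := P.supIndep
      rw [hCD, Finset.supIndep_pair hne] at this
      exact this
    rw [hCD, Finset.sup_insert, Finset.sup_singleton] at hsup
    simp only [id] at hsup
    have hD : univ \ C = D := by
      rw [← hsup]
      ext x
      simp only [Finset.mem_sdiff, Finset.sup_eq_union, Finset.mem_union]
      constructor
      · rintro ⟨h | h, h'⟩
        · exact absurd h h'
        · exact h
      · intro h
        exact ⟨Or.inr h, fun h' => Finset.disjoint_left.mp hdis h' h⟩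
    refine ⟨C, fun s v => ?_⟩
    rw [SC, hCD, Finset.sum_pair hne, hD, cc, cc]

theorem coe_sum' {α : Type*} (S : Finset α) (f : α → ℝ) :
    ((∑ i ∈ S, f i : ℝ) : EReal) = ∑ i ∈ S, (f i : EReal) := by
  classical
  induction S using Finset.induction_on with
  | empty => simp
  | insert a S ha ih => rw [Finset.sum_insert ha, Finset.sum_insert ha, EReal.coe_add, ih]

theorem cc_real {n : ℕ} (s : Setting) (v : Fin n → ℝ) (C : Finset (Fin n))
    (h : C.card ≠ 1) : cc s v C = ((F v C : ℝ) : EReal) := by
  have h1 : ∀ i ∈ C, cost s v C i = (((∑ j ∈ C, |v i - v j|) / ((C.card : ℝ) - 1) : ℝ) : EReal) := by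
    intro i hi
    simp only [cost, if_neg h]
    congr 2
    rw [← Finset.add_sum_erase C _ hi]
    simp
  rw [cc, Finset.sum_congr rfl h1, F, W, Finset.sum_div, coe_sum']

theorem cc_HIS {n : ℕ} (v : Fin n → ℝ) (C : Finset (Fin n)) :
    cc .HIS v C = ((F v C : ℝ) : EReal) := by
  by_cases h : C.card = 1
  · rw [F, h]
    have h1 : ∀ i ∈ C, cost .HIS v C i = 0 := by
      intro i _
      simp only [cost, if_pos h]
    rw [cc, Finset.sum_congr rfl h1]
    simp
  · exact cc_real _ v C h

theorem cc_UIS {n : ℕ} (v : Fin n → ℝ) (C : Finset (Fin n)) (h : C.card = 1) :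
    cc .UIS v C = ⊤ := by
  obtain ⟨i, rfl⟩ := Finset.card_eq_one.mp h
  rw [cc, Finset.sum_singleton]
  simp [cost]

/-- extension of the values to `ℕ` -/
noncomputable def ext {n : ℕ} (v : Fin n → ℝ) : ℕ → ℝ := fun k => if h : k < n then v ⟨k, h⟩ else 0

theorem ext_val {n : ℕ} (v : Fin n → ℝ) (i : Fin n) : ext v i.val = v i := by
  simp [ext]

theorem F_map {n : ℕ} (v : Fin n → ℝ) (C : Finset (Fin n)) :
    F (ext v) (C.map Fin.valEmbedding) = F v C := by
  unfold F W
  rw [Finset.card_map, Finset.sum_map]
  congr 1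
  apply Finset.sum_congr rfl
  intro i _
  rw [Finset.sum_map]
  apply Finset.sum_congr rfl
  intro j _
  simp only [Fin.valEmbedding_apply, ext_val]

theorem map_compl {n : ℕ} (C : Finset (Fin n)) :
    (univ \ C).map Fin.valEmbedding = range n \ C.map Fin.valEmbedding := by
  rw [Finset.map_sdiff, Fin.map_valEmbedding_univ, Nat.Iio_eq_range]

theorem K_map {n : ℕ} (v : Fin n → ℝ) (C : Finset (Fin n)) :
    K (ext v) (range n) (C.map Fin.valEmbedding) = F v C + F v (univ \ C) := by
  rw [K, ← map_compl, F_map, F_map]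

theorem map_sub {n : ℕ} (C : Finset (Fin n)) : C.map Fin.valEmbedding ⊆ range n := by
  intro k hk
  rw [Finset.mem_map] at hk
  obtain ⟨i, _, rfl⟩ := hk
  exact Finset.mem_range.mpr i.isLt

theorem sorted_of {n : ℕ} {v : Fin n → ℝ} {D : Finset (Fin n)}
    (h : SortedSet (ext v) (range n) (D.map Fin.valEmbedding)) :
    ∀ i ∈ D, ∀ j ∈ D, ∀ k : Fin n, min (v i) (v j) ≤ v k → v k ≤ max (v i) (v j) → k ∈ D := by
  have h' : ∀ i ∈ D, ∀ j ∈ D, ∀ k : Fin n, v i ≤ v k → v k ≤ v j → k ∈ D := by
    intro i hi j hj k h1 h2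
    have := h i.val (Finset.mem_map.mpr ⟨i, hi, rfl⟩) j.val (Finset.mem_map.mpr ⟨j, hj, rfl⟩) k.val
      (Finset.mem_range.mpr k.isLt) (by rw [ext_val, ext_val]; exact h1)
      (by rw [ext_val, ext_val]; exact h2)
    rw [Finset.mem_map] at this
    obtain ⟨k', hk', he⟩ := this
    have : k' = k := Fin.ext he
    rw [← this]; exact hk'
  intro i hi j hj k h1 h2
  rcases le_total (v i) (v j) with h3 | h3
  · rw [min_eq_left h3] at h1
    rw [max_eq_right h3] at h2
    exact h' i hi j hj k h1 h2
  · rw [min_eq_right h3] at h1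
    rw [max_eq_left h3] at h2
    exact h' j hj i hi k h1 h2

/-- **Positive answer to Q1.** -/
theorem result (n : ℕ) (hn : 2 ≤ n) (v : Fin n → ℝ) (hv : Monotone v) (s : Setting) :
    ∃ P : Finpartition (Finset.univ : Finset (Fin n)), IsOptimal s v P ∧ Sorted v P := by
  have hv' : ∀ i j, i ≤ j → j < n → ext v i ≤ ext v j := by
    intro i j hij hj
    have hi : i < n := by omega
    unfold ext
    rw [dif_pos hi, dif_pos hj]
    exact hv (Fin.mk_le_mk.mpr hij)
  have key : ∀ b : Bool, ∃ D : Finset (Fin n), (b = true → D.card ≠ 1 ∧ (univ \ D).card ≠ 1) ∧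
      SortedSet (ext v) (range n) (D.map Fin.valEmbedding) ∧
      SortedSet (ext v) (range n) ((univ \ D).map Fin.valEmbedding) ∧
      ∀ D' : Finset (Fin n), (b = true → D'.card ≠ 1 ∧ (univ \ D').card ≠ 1) →
        F v D + F v (univ \ D) ≤ F v D' + F v (univ \ D') := by
    intro b
    obtain ⟨C, hCs, hf, s1, s2, hmin⟩ := best hn hv' b
    have hD : (univ.filter (fun i : Fin n => i.val ∈ C)).map Fin.valEmbedding = C := by
      ext k
      simp only [Finset.mem_map, Finset.mem_filter, Finset.mem_univ, true_and,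
        Fin.valEmbedding_apply]
      constructor
      · rintro ⟨i, hi, rfl⟩; exact hi
      · intro hk
        exact ⟨⟨k, Finset.mem_range.mp (hCs hk)⟩, hk, rfl⟩
    refine ⟨univ.filter (fun i : Fin n => i.val ∈ C), ?_, ?_, ?_, ?_⟩
    · intro hb
      obtain ⟨h1, h2⟩ := hf hb
      rw [← hD, Finset.card_map] at h1
      rw [← hD, ← map_compl, Finset.card_map] at h2
      exact ⟨h1, h2⟩
    · rw [hD]; exact s1
    · rw [map_compl, hD]; exact s2
    · intro D' hD'
      have := hmin (D'.map Fin.valEmbedding) (map_sub D') (by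
        intro hb
        obtain ⟨h1, h2⟩ := hD' hb
        exact ⟨by rw [Finset.card_map]; exact h1, by rw [← map_compl, Finset.card_map]; exact h2⟩)
      rw [K_map] at this
      rw [← hD, K_map] at this
      exact this
  cases s with
  | HIS =>
    obtain ⟨D, _, s1, s2, hmin⟩ := key false
    obtain ⟨P, hP1, hP2, hP3⟩ := exists_part hn D
    refine ⟨P, ⟨hP1, ?_⟩, ?_⟩
    · intro P' hP'
      obtain ⟨D', hD'⟩ := part_exists hn P' hP'
      rw [hP3, hD', cc_HIS, cc_HIS, cc_HIS, cc_HIS, ← EReal.coe_add, ← EReal.coe_add,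
        EReal.coe_le_coe_iff]
      exact hmin D' (by simp)
    · intro C hC
      rcases hP2 C hC with rfl | rfl
      · exact sorted_of s1
      · exact sorted_of s2
  | UIS =>
    obtain ⟨D, hf, s1, s2, hmin⟩ := key true
    obtain ⟨P, hP1, hP2, hP3⟩ := exists_part hn D
    refine ⟨P, ⟨hP1, ?_⟩, ?_⟩
    · intro P' hP'
      obtain ⟨D', hD'⟩ := part_exists hn P' hP'
      rw [hP3, hD', cc_real _ v D (hf rfl).1, cc_real _ v (univ \ D) (hf rfl).2]
      by_cases h1 : D'.card = 1
      · rw [cc_UIS v D' h1]
        by_cases h2 : (univ \ D').card = 1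
        · rw [cc_UIS v _ h2]; simp
        · rw [cc_real _ v _ h2, EReal.top_add_coe]; exact le_top
      · by_cases h2 : (univ \ D').card = 1
        · rw [cc_UIS v _ h2, cc_real _ v _ h1, EReal.coe_add_top]; exact le_top
        · rw [cc_real _ v _ h1, cc_real _ v _ h2, ← EReal.coe_add, ← EReal.coe_add,
            EReal.coe_le_coe_iff]
          exact hmin D' (fun _ => ⟨h1, h2⟩)
    · intro C hC
      rcases hP2 C hC with rfl | rfl
      · exact sorted_of s1
      · exact sorted_of s2

end Pool.Agent.Results.MP_e22fa6_co.SortedOptimum
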